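import Pool.Agent.H53.QEX.Sys

/-!
# QEX: from residues to integers, and the dyadic union
-/

set_option autoImplicit false

namespace Pool.QEX53

open Finset

/-- Every `h ≤ L` is `p + q` with `p`, `q`, `p - q` in `P`. -/
def Good (P : Finset ℕ) (L : ℕ) : Prop :=
  ∀ h ≤ L, ∃ p ∈ P, ∃ q ∈ P, p + q = h ∧ q ≤ p ∧ p - q ∈ P

theorem lift {l K : ℕ} [NeZero l] (hK : SysU l K) : ∃ P : Finset ℕ, P.card ≤ 24 * K ∧
    ∀ h : ℕ, 2 * l ≤ h → h < 8 * l → ∃ p ∈ P, ∃ q ∈ P, p + q = h ∧ q ≤ p ∧ p - q ∈ P := by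
  obtain ⟨X, Y, Z, hX, hY, hZ, hs⟩ := hK
  have hl : 0 < l := NeZero.pos l
  refine ⟨((X ∪ Y ∪ Z) ×ˢ Finset.range 8).image (fun z => z.1.val + l * z.2), ?_, ?_⟩
  · refine Finset.card_image_le.trans ?_
    rw [Finset.card_product, Finset.card_range]
    have h1 := Finset.card_union_le (X ∪ Y) Z
    have h2 := Finset.card_union_le X Y
    omega
  · intro h h2 h8
    obtain ⟨x, hx, y, hy, hxy, hz⟩ := hs (h : ZMod l)
    have hyl : y.val < l := ZMod.val_lt y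
    have hmem : ∀ (a : ℕ) (w : ZMod l), w ∈ X ∪ Y ∪ Z → (a : ZMod l) = w → a < 8 * l →
        a ∈ ((X ∪ Y ∪ Z) ×ˢ Finset.range 8).image (fun z => z.1.val + l * z.2) := by
      intro a w hw haw ha
      refine Finset.mem_image.2 ⟨(w, a / l), Finset.mem_product.2 ⟨hw, Finset.mem_range.2 ?_⟩, ?_⟩
      · exact (Nat.div_lt_iff_lt_mul hl).2 ha
      · simp only
        rw [← haw, ZMod.val_natCast]
        exact Nat.mod_add_div a l
    have e1 : ((h - y.val : ℕ) : ZMod l) = x := by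
      rw [Nat.cast_sub (by omega), ZMod.natCast_zmod_val, ← hxy]
      ring
    have e2 : ((h - y.val - y.val : ℕ) : ZMod l) = x - y := by
      rw [Nat.cast_sub (by omega), e1, ZMod.natCast_zmod_val]
    refine ⟨h - y.val, ?_, y.val, ?_, by omega, by omega, ?_⟩
    · exact hmem _ x (by simp [hx]) e1 (by omega)
    · exact hmem _ y (by simp [hy]) (ZMod.natCast_zmod_val y) (by omega)
    · exact hmem _ (x - y) (by simp [hz]) e2 (by omega)

/-- Polynomial against exponential growth. -/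
theorem sq_le (δ : ℝ) (hδ : 0 < δ) : ∃ C : ℝ, 0 ≤ C ∧ ∀ L : ℕ,
    ((L : ℝ) + 1) ^ 2 ≤ C * ((2 : ℝ) ^ L) ^ δ := by
  set t : ℝ := δ * Real.log 2 / 2 with ht
  have hlog : 0 < Real.log 2 := Real.log_pos (by norm_num)
  have htpos : 0 < t := by positivity
  refine ⟨(2 : ℝ) ^ δ / t ^ 2, by positivity, ?_⟩
  intro L
  have h1 : t * ((L : ℝ) + 1) ≤ Real.exp (t * ((L : ℝ) + 1)) := by
    have := Real.add_one_le_exp (t * ((L : ℝ) + 1))
    linarith
  have h2 : (t * ((L : ℝ) + 1)) ^ 2 ≤ Real.exp (t * ((L : ℝ) + 1)) ^ 2 :=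
    pow_le_pow_left₀ (by positivity) h1 2
  have h3 : Real.exp (t * ((L : ℝ) + 1)) ^ 2 = (2 : ℝ) ^ δ * ((2 : ℝ) ^ L) ^ δ := by
    rw [← Real.mul_rpow (by norm_num) (by positivity), ← pow_succ',
      Real.rpow_def_of_pos (by positivity), Real.log_pow, ← Real.exp_nat_mul]
    congr 1
    rw [ht]
    push_cast
    ring
  rw [h3, mul_pow] at h2
  rw [div_mul_eq_mul_div, le_div_iff₀ (by positivity)]
  linarith

theorem exists_good (A : Finset (ℤ × ℤ)) (N M : ℕ) (hx : (A.image Prod.fst).card ≤ N)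
    (hy : (A.image Prod.snd).card ≤ N) (hz : (A.image (fun z => z.1 + z.2)).card ≤ N)
    (hM : (A.image (fun z => z.1 - z.2)).card = M) (hM3 : 3 ≤ M) (θ δ : ℝ) (hθ : 0 ≤ θ)
    (hδ : 0 < δ) (hNM : (N : ℝ) ≤ (M : ℝ) ^ θ) :
    ∃ C : ℝ, ∀ n : ℕ, 1 ≤ n → ∃ P : Finset ℕ, 0 ∈ P ∧ 1 ∈ P ∧ Good P (2 * n) ∧
      (P.card : ℝ) ≤ C * (n : ℝ) ^ (θ + δ) := by
  obtain ⟨i₀, hi₀⟩ := sys_univ A N M hx hy hz hM hM3
  -- one dyadic range
  have hone : ∀ i : ℕ, i₀ ≤ i → ∃ P : Finset ℕ,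
      (P.card : ℝ) ≤ 24 * ((i + 2) * N * ((2 : ℝ) ^ (i + 2)) ^ θ) ∧
      ∀ h : ℕ, 2 ^ (i + 2) < h → h ≤ 2 ^ (i + 3) →
        ∃ p ∈ P, ∃ q ∈ P, p + q = h ∧ q ≤ p ∧ p - q ∈ P := by
    intro i hi
    obtain ⟨l, hl, hl1, hl2⟩ := Nat.exists_prime_lt_and_le_two_mul (2 ^ i) (by positivity)
    have hlt : i₀ < l := by
      have h1 : i < 2 ^ i := Nat.lt_two_pow_self
      omega
    set k := Nat.clog M (2 ^ (i + 2)) with hk
    have h1 : 2 ^ (i + 2) ≤ M ^ k := Nat.le_pow_clog (by omega) _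
    have h2 : M ^ (k - 1) < 2 ^ (i + 2) := Nat.pow_pred_clog_lt_self (by omega)
      (Nat.one_lt_two_pow (by omega))
    have hkpos : 0 < k := Nat.clog_pos (by omega) (Nat.one_lt_two_pow (by omega))
    have e2 : 2 ^ (i + 2) = 4 * 2 ^ i := by rw [pow_add]; ring
    have e3 : 2 ^ (i + 3) = 8 * 2 ^ i := by rw [pow_add]; ring
    have hsys := hi₀ l hl hlt k (i + 2) (by omega) (by omega)
    have : NeZero l := ⟨hl.ne_zero⟩
    obtain ⟨P, hP, hP'⟩ := lift hsys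
    refine ⟨P, ?_, ?_⟩
    · have h3 : (P.card : ℝ) ≤ 24 * ((i + 2) * (N : ℝ) ^ k) := by exact_mod_cast hP
      refine h3.trans ?_
      have h4 : (N : ℝ) ^ k ≤ N * ((2 : ℝ) ^ (i + 2)) ^ θ := by
        obtain ⟨j, hj⟩ : ∃ j, k = j + 1 := ⟨k - 1, by omega⟩
        rw [hj, pow_succ, mul_comm]
        refine mul_le_mul_of_nonneg_left ?_ (Nat.cast_nonneg N)
        rw [hj, Nat.add_sub_cancel] at h2
        calc (N : ℝ) ^ j ≤ ((M : ℝ) ^ θ) ^ j := pow_le_pow_left₀ (Nat.cast_nonneg N) hNM j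
          _ = ((M : ℝ) ^ j) ^ θ := by
              rw [← Real.rpow_natCast ((M : ℝ) ^ θ) j, ← Real.rpow_natCast (M : ℝ) j,
                ← Real.rpow_mul (Nat.cast_nonneg M), ← Real.rpow_mul (Nat.cast_nonneg M),
                mul_comm]
          _ ≤ ((2 : ℝ) ^ (i + 2)) ^ θ := by
              refine Real.rpow_le_rpow (by positivity) ?_ hθ
              exact_mod_cast h2.le
      have h5 : (0 : ℝ) ≤ (i : ℝ) + 2 := by positivity
      calc 24 * (((i : ℝ) + 2) * (N : ℝ) ^ k)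
          ≤ 24 * (((i : ℝ) + 2) * (N * ((2 : ℝ) ^ (i + 2)) ^ θ)) := by gcongr
        _ = _ := by ring
    · intro h hh1 hh2
      exact hP' h (by omega) (by omega)
  choose! Pf hPf1 hPf2 using hone
  obtain ⟨C, hC0, hC⟩ := sq_le δ hδ
  refine ⟨(2 ^ (i₀ + 2) + 2) + 24 * N * (2 : ℝ) ^ θ * C, ?_⟩
  intro n hn
  set L := Nat.log 2 n with hL
  have hLn : 2 ^ L ≤ n := Nat.pow_log_le_self 2 (by omega)
  have hpos0 : 0 < 2 ^ (i₀ + 2) := by positivity
  refine ⟨Finset.range (2 ^ (i₀ + 2) + 2) ∪ (Finset.Ico i₀ L).biUnion Pf, ?_, ?_, ?_, ?_⟩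
  · exact Finset.mem_union_left _ (Finset.mem_range.2 (by omega))
  · exact Finset.mem_union_left _ (Finset.mem_range.2 (by omega))
  · intro h hh
    by_cases hs : h ≤ 2 ^ (i₀ + 2)
    · exact ⟨h, Finset.mem_union_left _ (Finset.mem_range.2 (by omega)), 0,
        Finset.mem_union_left _ (Finset.mem_range.2 (by omega)), by omega, by omega,
        Finset.mem_union_left _ (Finset.mem_range.2 (by omega))⟩
    · -- the dyadic range of `h`
      set c := Nat.clog 2 h with hc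
      have h1 : h ≤ 2 ^ c := Nat.le_pow_clog (by norm_num) _
      have hpos : 0 < 2 ^ (i₀ + 2) := by positivity
      have h2 : 2 ^ (c - 1) < h := Nat.pow_pred_clog_lt_self (by norm_num) (by omega)
      have h3 : i₀ + 2 < c := by
        by_contra hcon
        have := Nat.pow_le_pow_right (n := 2) (by norm_num) (not_lt.1 hcon)
        omega
      obtain ⟨i, hi⟩ : ∃ i, c = i + 3 := ⟨c - 3, by omega⟩
      rw [hi] at h1 h2
      have hi0 : i₀ ≤ i := by omega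
      have hiL : i < L := by
        have h4 : 2 ^ (i + 1) ≤ n := by
          have e : 2 ^ (i + 3 - 1) = 2 * 2 ^ (i + 1) := by
            rw [show i + 3 - 1 = (i + 1) + 1 by omega, pow_succ]
            ring
          omega
        have := Nat.le_log_of_pow_le (by norm_num) h4
        omega
      obtain ⟨p, hp, q, hq, e1, e2, e3⟩ := hPf2 i hi0 h h2 h1
      have hsub : ∀ z, z ∈ Pf i → z ∈ Finset.range (2 ^ (i₀ + 2) + 2) ∪
          (Finset.Ico i₀ L).biUnion Pf := fun z hz =>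
        Finset.mem_union_right _ (Finset.mem_biUnion.2 ⟨i, Finset.mem_Ico.2 ⟨hi0, hiL⟩, hz⟩)
      exact ⟨p, hsub p hp, q, hsub q hq, e1, e2, hsub _ e3⟩
  · have hn1 : (1 : ℝ) ≤ n := by exact_mod_cast hn
    have h1 : (((Finset.range (2 ^ (i₀ + 2) + 2) ∪ (Finset.Ico i₀ L).biUnion Pf).card : ℕ) : ℝ) ≤
        (2 ^ (i₀ + 2) + 2) + ∑ i ∈ Finset.Ico i₀ L, ((Pf i).card : ℝ) := by
      have h2 := (Finset.card_union_le (Finset.range (2 ^ (i₀ + 2) + 2))
        ((Finset.Ico i₀ L).biUnion Pf)).trans (Nat.add_le_add_left Finset.card_biUnion_le _)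
      rw [Finset.card_range] at h2
      exact_mod_cast h2
    have h2 : ∑ i ∈ Finset.Ico i₀ L, ((Pf i).card : ℝ) ≤
        ((L : ℝ) + 1) ^ 2 * (24 * N * ((2 : ℝ) * n) ^ θ) := by
      have h3 : ∀ i ∈ Finset.Ico i₀ L, ((Pf i).card : ℝ) ≤
          ((L : ℝ) + 1) * (24 * N * ((2 : ℝ) * n) ^ θ) := by
        intro i hi
        rw [Finset.mem_Ico] at hi
        refine (hPf1 i hi.1).trans ?_
        have h4 : ((i : ℝ) + 2) ≤ (L : ℝ) + 1 := by
          have : i + 1 ≤ L := hi.2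
          have : (i : ℝ) + 1 ≤ L := by exact_mod_cast this
          linarith
        have h5 : ((2 : ℝ) ^ (i + 2)) ^ θ ≤ ((2 : ℝ) * n) ^ θ := by
          refine Real.rpow_le_rpow (by positivity) ?_ hθ
          have h6 : 2 ^ (i + 2) ≤ 2 * n := by
            have h7 : 2 ^ (i + 2) ≤ 2 ^ (L + 1) := Nat.pow_le_pow_right (by norm_num) (by omega)
            rw [pow_succ 2 L] at h7
            omega
          exact_mod_cast h6
        calc 24 * (((i : ℝ) + 2) * N * ((2 : ℝ) ^ (i + 2)) ^ θ)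
            ≤ 24 * (((L : ℝ) + 1) * N * ((2 : ℝ) * n) ^ θ) := by gcongr
          _ = _ := by ring
      refine (Finset.sum_le_sum h3).trans ?_
      rw [Finset.sum_const, nsmul_eq_mul]
      have h4 : (((Finset.Ico i₀ L).card : ℕ) : ℝ) ≤ (L : ℝ) + 1 := by
        rw [Nat.card_Ico]
        have : L - i₀ ≤ L + 1 := by omega
        exact_mod_cast this
      calc (((Finset.Ico i₀ L).card : ℕ) : ℝ) * (((L : ℝ) + 1) * (24 * N * ((2 : ℝ) * n) ^ θ))
          ≤ ((L : ℝ) + 1) * (((L : ℝ) + 1) * (24 * N * ((2 : ℝ) * n) ^ θ)) := by gcongr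
        _ = _ := by ring
    have h3 : ((L : ℝ) + 1) ^ 2 ≤ C * (n : ℝ) ^ δ := by
      refine (hC L).trans (mul_le_mul_of_nonneg_left ?_ hC0)
      refine Real.rpow_le_rpow (by positivity) ?_ hδ.le
      exact_mod_cast hLn
    have h4 : (1 : ℝ) ≤ (n : ℝ) ^ (θ + δ) := Real.one_le_rpow hn1 (by positivity)
    have h5 : ((2 : ℝ) * n) ^ θ = (2 : ℝ) ^ θ * (n : ℝ) ^ θ :=
      Real.mul_rpow (by norm_num) (by positivity)
    have h6 : (n : ℝ) ^ (θ + δ) = (n : ℝ) ^ θ * (n : ℝ) ^ δ :=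
      Real.rpow_add (by linarith) θ δ
    calc (((Finset.range (2 ^ (i₀ + 2) + 2) ∪ (Finset.Ico i₀ L).biUnion Pf).card : ℕ) : ℝ)
        ≤ (2 ^ (i₀ + 2) + 2) + ((L : ℝ) + 1) ^ 2 * (24 * N * ((2 : ℝ) * n) ^ θ) :=
          h1.trans (by linarith)
      _ ≤ (2 ^ (i₀ + 2) + 2) * (n : ℝ) ^ (θ + δ) +
          (C * (n : ℝ) ^ δ) * (24 * N * ((2 : ℝ) * n) ^ θ) := by
          have h7 : ((2 : ℝ) ^ (i₀ + 2) + 2) ≤ (2 ^ (i₀ + 2) + 2) * (n : ℝ) ^ (θ + δ) :=
            le_mul_of_one_le_right (by positivity) h4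
          have h8 : ((L : ℝ) + 1) ^ 2 * (24 * N * ((2 : ℝ) * n) ^ θ) ≤
              (C * (n : ℝ) ^ δ) * (24 * N * ((2 : ℝ) * n) ^ θ) :=
            mul_le_mul_of_nonneg_right h3 (by positivity)
          linarith
      _ = ((2 ^ (i₀ + 2) + 2) + 24 * N * (2 : ℝ) ^ θ * C) * (n : ℝ) ^ (θ + δ) := by
          rw [h5, h6]
          ring

end Pool.QEX53
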