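import Pool.Agent.H53.QEX.Defs
import Pool.Agent.H53.QEX.Lift

/-!
# QEX: a good additive set gives a large irredundant set (after helper58's LowerBound)
-/

set_option autoImplicit false

namespace Pool.QEX53

namespace Lo

theorem le_upperIrr {V : Type} [Fintype V] (G : SimpleGraph V) (S : Finset V)
    (hS : Irredundant G S) : S.card ≤ upperIrr G := by
  apply le_csSup
  · refine ⟨Fintype.card V, ?_⟩
    rintro k ⟨T, _, rfl⟩
    exact Finset.card_le_univ T
  · exact ⟨S, hS, rfl⟩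

/-- the four line directions -/
def lin (k : Fin 4) (z : ℤ × ℤ) : ℤ :=
  match k with
  | 0 => z.1
  | 1 => z.2
  | 2 => z.1 - z.2
  | 3 => z.1 + z.2

def onBoard (n : ℕ) (z : ℤ × ℤ) : Prop := 0 ≤ z.1 ∧ z.1 < n ∧ 0 ≤ z.2 ∧ z.2 < n

def toSq (n : ℕ) (z : ℤ × ℤ) (h : onBoard n z) : Fin n × Fin n :=
  (⟨z.1.toNat, by obtain ⟨h1, h2, _, _⟩ := h; omega⟩,
   ⟨z.2.toNat, by obtain ⟨_, _, h1, h2⟩ := h; omega⟩)

theorem toSq_fst (n : ℕ) (z : ℤ × ℤ) (h : onBoard n z) : ((toSq n z h).1.val : ℤ) = z.1 := by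
  obtain ⟨h1, h2, _, _⟩ := h
  simp [toSq, h1]

theorem toSq_snd (n : ℕ) (z : ℤ × ℤ) (h : onBoard n z) : ((toSq n z h).2.val : ℤ) = z.2 := by
  obtain ⟨_, _, h1, h2⟩ := h
  simp [toSq, h1]

theorem closed_iff (n : ℕ) (z w : ℤ × ℤ) (hz : onBoard n z) (hw : onBoard n w) :
    InClosedNbhd (queens n) (toSq n z hz) (toSq n w hw) ↔ ∃ k, lin k z = lin k w := by
  have a1 := toSq_fst n z hz
  have a2 := toSq_snd n z hz
  have b1 := toSq_fst n w hw
  have b2 := toSq_snd n w hw
  constructor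
  · rintro (h | ⟨_, h | h | h | h⟩)
    · refine ⟨0, ?_⟩
      rw [← h] at a1
      simp only [lin]
      omega
    · refine ⟨0, ?_⟩
      rw [h] at a1
      simp only [lin]
      omega
    · refine ⟨1, ?_⟩
      rw [h] at a2
      simp only [lin]
      omega
    · refine ⟨2, ?_⟩
      simp only [lin]
      omega
    · refine ⟨3, ?_⟩
      simp only [lin]
      omega
  · rintro ⟨k, hk⟩
    by_cases h : toSq n z hz = toSq n w hw
    · left; exact h.symm
    · right
      refine ⟨h, ?_⟩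
      fin_cases k
      · left; apply Fin.ext; simp only [lin] at hk; omega
      · right; left; apply Fin.ext; simp only [lin] at hk; omega
      · right; right; left; simp only [lin] at hk; omega
      · right; right; right; simp only [lin] at hk; omega

/-- The abstract construction of irredundant sets. -/
theorem construction (n : ℕ) (T : Finset (Fin 4 × ℤ)) (Wl El : Fin 4 → ℤ → Prop)
    (hW : ∀ l ∈ T, ∃ z, onBoard n z ∧ lin l.1 z = l.2 ∧ ∀ k, k ≠ l.1 → Wl k (lin k z))
    (hE : ∀ l ∈ T, ∃ z, onBoard n z ∧ lin l.1 z = l.2 ∧ ∀ k, k ≠ l.1 → El k (lin k z))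
    (hT : ∀ l ∈ T, ¬ Wl l.1 l.2 ∧ ¬ El l.1 l.2)
    (hWE : ∀ k t, Wl k t → ¬ El k t) :
    T.card ≤ upperIrr (queens n) := by
  classical
  choose! v hv1 hv2 hv3 using hW
  choose! w hw1 hw2 hw3 using hE
  let f : {l // l ∈ T} → Fin n × Fin n := fun l => toSq n (v l.1) (hv1 l.1 l.2)
  have key : ∀ l ∈ T, ∀ l' ∈ T, l' ≠ l → ∀ k, lin k (v l') ≠ lin k (w l) := by
    intro l hl l' hl' hne k hk
    by_cases h1 : k = l.1
    · by_cases h2 : k = l'.1
      · apply hne
        refine Prod.ext (h2.symm.trans h1) ?_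
        rw [← hv2 l' hl', ← hw2 l hl, ← h2, hk, h1]
      · have h3 := hv3 l' hl' k h2
        rw [hk, h1, hw2 l hl] at h3
        exact (hT l hl).1 h3
    · have h4 := hw3 l hl k h1
      by_cases h2 : k = l'.1
      · rw [← hk, h2, hv2 l' hl'] at h4
        exact (hT l' hl').2 h4
      · have h3 := hv3 l' hl' k h2
        rw [hk] at h3
        exact hWE _ _ h3 h4
  have hinj : Function.Injective f := by
    intro l l' h
    by_contra hne
    have e : v l.1 = v l'.1 := by
      have a1 := toSq_fst n _ (hv1 l.1 l.2)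
      have a2 := toSq_snd n _ (hv1 l.1 l.2)
      have b1 := toSq_fst n _ (hv1 l'.1 l'.2)
      have b2 := toSq_snd n _ (hv1 l'.1 l'.2)
      have h1 : toSq n (v l.1) (hv1 l.1 l.2) = toSq n (v l'.1) (hv1 l'.1 l'.2) := h
      rw [h1] at a1 a2
      exact Prod.ext (by omega) (by omega)
    have hne' : l.1 ≠ l'.1 := fun h => hne (Subtype.ext h)
    by_cases h2 : l.1.1 = l'.1.1
    · apply hne'
      refine Prod.ext h2 ?_
      rw [← hv2 l.1 l.2, ← hv2 l'.1 l'.2, e, h2]
    · have h3 := hv3 l'.1 l'.2 l.1.1 h2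
      rw [← e, hv2 l.1 l.2] at h3
      exact (hT l.1 l.2).1 h3
  have hcard : (Finset.univ.image f).card = T.card := by
    rw [Finset.card_image_of_injective _ hinj, Finset.card_univ, Fintype.card_coe]
  rw [← hcard]
  apply le_upperIrr
  intro x hx
  obtain ⟨l, _, rfl⟩ := Finset.mem_image.1 hx
  refine ⟨toSq n (w l.1) (hw1 l.1 l.2), ?_, ?_⟩
  · rw [closed_iff]
    exact ⟨l.1.1, by rw [hv2 _ l.2, hw2 _ l.2]⟩
  · intro u hu hne
    obtain ⟨l', _, rfl⟩ := Finset.mem_image.1 hu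
    rw [closed_iff]
    rintro ⟨k, hk⟩
    refine key l.1 l.2 l'.1 l'.2 ?_ k hk
    intro h
    apply hne
    have : l' = l := Subtype.ext h
    rw [this]

/-! ### Residue pattern modulo 13 -/

def pat (k : Fin 4) (r : ZMod 13) : Bool :=
  match k with
  | 0 => decide (r ∈ ([2, 6, 8, 10, 11, 12] : List (ZMod 13)))
  | 1 => decide (r ∈ ([1, 2, 4, 6, 9, 12] : List (ZMod 13)))
  | 2 => decide (r ∈ ([0, 1, 4, 6, 7, 9] : List (ZMod 13)))
  | 3 => decide (r ∈ ([2, 6, 7, 8, 10, 11, 12] : List (ZMod 13)))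

theorem pat_A : ∀ (b : Bool) (s : ZMod 13), ∃ x y : ZMod 13, x + y = s ∧ pat 0 x = b ∧
    pat 1 y = b ∧ pat 2 (x - y) = b := by decide

theorem pat_D : ∀ (b : Bool) (d : ZMod 13), ∃ x y : ZMod 13, x - y = d ∧ pat 0 x = b ∧
    pat 1 y = b ∧ pat 3 (x + y) = b := by decide

theorem pat_R : ∀ (b : Bool) (y : ZMod 13), ∃ x : ZMod 13, pat 0 x = b ∧
    pat 2 (x - y) = b ∧ pat 3 (x + y) = b := by decide

theorem pat_C : ∀ (b : Bool) (x : ZMod 13), ∃ y : ZMod 13, pat 1 y = b ∧
    pat 2 (x - y) = b ∧ pat 3 (x + y) = b := by decide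

/-! ### Special lines -/

def form (n : ℕ) (c : Fin 9) (u : ℤ) : ℤ :=
  match c with
  | 0 => u
  | 1 => -u
  | 2 => (n - 1) + u
  | 3 => (n - 1) - u
  | 4 => -(n - 1) + u
  | 5 => -(n - 1) - u
  | 6 => 2 * (n - 1) + u
  | 7 => 2 * (n - 1) - u
  | 8 => u / 2

def spec (P : Finset ℕ) (n : ℕ) : Finset ℤ :=
  ((P ×ˢ Finset.range 25) ×ˢ (Finset.univ : Finset (Fin 9))).image
    (fun t => form n t.2 (13 * (t.1.1 : ℤ) + (t.1.2 : ℤ) - 12))

theorem card_spec (P : Finset ℕ) (n : ℕ) : (spec P n).card ≤ 225 * P.card := by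
  unfold spec
  refine Finset.card_image_le.trans ?_
  rw [Finset.card_product, Finset.card_product, Finset.card_range, Finset.card_univ,
    Fintype.card_fin]
  omega

theorem mem_spec {P : Finset ℕ} {n : ℕ} (c : Fin 9) (k : ℕ) (hk : k ∈ P) (u : ℤ)
    (h1 : 13 * (k : ℤ) - 12 ≤ u) (h2 : u ≤ 13 * (k : ℤ) + 12) : form n c u ∈ spec P n := by
  unfold spec
  refine Finset.mem_image.2 ⟨((k, (u - 13 * (k : ℤ) + 12).toNat), c), ?_, ?_⟩
  · simp only [Finset.mem_product, Finset.mem_range, Finset.mem_univ, and_true]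
    refine ⟨hk, ?_⟩
    omega
  · congr 1
    simp only
    omega

theorem small_spec {P : Finset ℕ} {n : ℕ} (h0 : 0 ∈ P) (h1 : 1 ∈ P) (c : Fin 9) (u : ℤ)
    (hu : 0 ≤ u) (hu' : u ≤ 25) : form n c u ∈ spec P n := by
  by_cases h : u ≤ 12
  · exact mem_spec c 0 h0 u (by omega) (by omega)
  · exact mem_spec c 1 h1 u (by omega) (by omega)

theorem cast13 (a : ℤ) (r : ZMod 13) : ((13 * a + (r.val : ℤ) : ℤ) : ZMod 13) = r := by
  push_cast
  have h : (13 : ZMod 13) = 0 := by decide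
  rw [h, zero_mul, zero_add, ZMod.natCast_zmod_val]

theorem val_lt (r : ZMod 13) : (r.val : ℤ) < 13 := by
  exact_mod_cast ZMod.val_lt r

theorem dvd13 (a : ℤ) (h : ((a : ℤ) : ZMod 13) = 0) : ∃ m : ℤ, a = 13 * m := by
  have := (ZMod.intCast_zmod_eq_zero_iff_dvd a 13).1 h
  obtain ⟨m, hm⟩ := this
  exact ⟨m, by exact_mod_cast hm⟩

theorem forall4 {Q : Fin 4 → Prop} (h0 : Q 0) (h1 : Q 1) (h2 : Q 2) (h3 : Q 3) : ∀ k, Q k := by
  intro k
  match k with
  | 0 => exact h0
  | 1 => exact h1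
  | 2 => exact h2
  | 3 => exact h3

theorem lin0 (x y : ℤ) : lin 0 (x, y) = x := rfl
theorem lin1 (x y : ℤ) : lin 1 (x, y) = y := rfl
theorem lin2 (x y : ℤ) : lin 2 (x, y) = x - y := rfl
theorem lin3 (x y : ℤ) : lin 3 (x, y) = x + y := rfl

section exist
variable {P : Finset ℕ} {n : ℕ} (h0 : 0 ∈ P) (h1 : 1 ∈ P) (hP : Good P (2 * n))
include h0 h1 hP

theorem exist_A (b : Bool) (s : ℤ) (hs0 : 0 ≤ s) (hs1 : s ≤ 2 * (n - 1))
    (hns : s ∉ spec P n) : ∃ z, onBoard n z ∧ lin 3 z = s ∧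
      ∀ k, k ≠ 3 → lin k z ∈ spec P n ∧ pat k ((lin k z : ℤ) : ZMod 13) = b := by
  obtain ⟨xr, yr, hxy, hx, hy, hd⟩ := pat_A b (s : ZMod 13)
  by_cases hc : s ≤ n - 1
  · have hs26 : 26 ≤ s := by
      by_contra h
      exact hns (small_spec (n := n) h0 h1 0 s hs0 (by omega))
    obtain ⟨m, hm⟩ := dvd13 (s - xr.val - yr.val) (by
      push_cast; rw [ZMod.natCast_zmod_val, ZMod.natCast_zmod_val, ← hxy]; ring)
    have vx := val_lt xr
    have vy := val_lt yr
    obtain ⟨p, hp, q, hq, hpq, hle, hpq'⟩ := hP m.toNat (by omega)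
    refine ⟨(13 * p + xr.val, 13 * q + yr.val), ⟨by positivity, by simp only; omega,
      by positivity, by simp only; omega⟩, by simp only [lin]; omega, ?_⟩
    refine forall4 ?_ ?_ ?_ ?_ <;> intro hk <;> simp only [lin0, lin1, lin2, lin3]
    · refine ⟨mem_spec (n := n) 0 p hp _ (by omega) (by omega), ?_⟩
      rw [cast13]; exact hx
    · refine ⟨mem_spec (n := n) 0 q hq _ (by omega) (by omega), ?_⟩
      rw [cast13]; exact hy
    · refine ⟨mem_spec (n := n) 0 (p - q) hpq' _ (by omega)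
        (by omega), ?_⟩
      rw [Int.cast_sub, cast13, cast13]; exact hd
    · exact absurd rfl hk
  · have hs26 : 26 ≤ 2 * (n - 1) - s := by
      by_contra h
      apply hns
      have := small_spec (n := n) h0 h1 7 (2 * (n - 1) - s) (by omega) (by omega)
      have e : form n 7 (2 * (n - 1) - s) = s := by simp only [form]; ring
      rwa [e] at this
    obtain ⟨m, hm⟩ := dvd13 ((2 * (n - 1) - s) - (((n : ZMod 13) - 1 - xr).val : ℤ)
        - (((n : ZMod 13) - 1 - yr).val : ℤ)) (by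
      push_cast; rw [ZMod.natCast_zmod_val, ZMod.natCast_zmod_val, ← hxy]; ring)
    have vx := val_lt ((n : ZMod 13) - 1 - xr)
    have vy := val_lt ((n : ZMod 13) - 1 - yr)
    have hx' : (((n : ℤ) - 1 - (13 * m + (((n : ZMod 13) - 1 - xr).val : ℤ)) : ℤ) : ZMod 13) = xr := by
      rw [Int.cast_sub, cast13]; push_cast; ring
    obtain ⟨p, hp, q, hq, hpq, hle, hpq'⟩ := hP m.toNat (by omega)
    have cx : ∀ a : ℤ, (((n : ℤ) - 1 - (13 * a + (((n : ZMod 13) - 1 - xr).val : ℤ)) : ℤ) : ZMod 13)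
        = xr := by
      intro a; rw [Int.cast_sub, cast13]; push_cast; ring
    have cy : ∀ a : ℤ, (((n : ℤ) - 1 - (13 * a + (((n : ZMod 13) - 1 - yr).val : ℤ)) : ℤ) : ZMod 13)
        = yr := by
      intro a; rw [Int.cast_sub, cast13]; push_cast; ring
    generalize (((n : ZMod 13) - 1 - xr).val) = x0 at *
    generalize (((n : ZMod 13) - 1 - yr).val) = y0 at *
    refine ⟨((n : ℤ) - 1 - (13 * (p : ℤ) + x0), (n : ℤ) - 1 - (13 * (q : ℤ) + y0)),
      ⟨by simp only; omega, by simp only; omega, by simp only; omega, by simp only; omega⟩,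
      by simp only [lin]; omega, ?_⟩
    refine forall4 ?_ ?_ ?_ ?_ <;> intro hk <;> simp only [lin0, lin1, lin2, lin3]
    · refine ⟨mem_spec (n := n) 3 p hp (13 * (p : ℤ) + x0) (by omega) (by omega), ?_⟩
      rw [cx]; exact hx
    · refine ⟨mem_spec (n := n) 3 q hq (13 * (q : ℤ) + y0) (by omega) (by omega), ?_⟩
      rw [cy]; exact hy
    · constructor
      · have := mem_spec (n := n) 1 (p - q) hpq' ((13 * (p : ℤ) + x0) - (13 * (q : ℤ) + y0))
          (by omega) (by omega)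
        convert this using 1
        simp only [form]; ring
      · rw [Int.cast_sub, cx, cy]; exact hd
    · exact absurd rfl hk

theorem exist_D (b : Bool) (d : ℤ) (hd0 : -(n : ℤ) < d) (hd1 : d < n)
    (hnd : d ∉ spec P n) : ∃ z, onBoard n z ∧ lin 2 z = d ∧
      ∀ k, k ≠ 2 → lin k z ∈ spec P n ∧ pat k ((lin k z : ℤ) : ZMod 13) = b := by
  obtain ⟨xr, yr, hxy, hx, hy, hs⟩ := pat_D b (d : ZMod 13)
  by_cases hc : 0 ≤ d
  · -- bottom right corner: x = n - 1 - x', y = y'
    have hs26 : 26 ≤ (n - 1) - d := by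
      by_contra h
      apply hnd
      have := small_spec (n := n) h0 h1 3 ((n - 1) - d) (by omega) (by omega)
      have e : form n 3 ((n - 1) - d) = d := by simp only [form]; ring
      rwa [e] at this
    obtain ⟨m, hm⟩ := dvd13 (((n - 1) - d) - (((n : ZMod 13) - 1 - xr).val : ℤ)
        - (yr.val : ℤ)) (by
      push_cast; rw [ZMod.natCast_zmod_val, ZMod.natCast_zmod_val, ← hxy]; ring)
    have vx := val_lt ((n : ZMod 13) - 1 - xr)
    have vy := val_lt yr
    obtain ⟨p, hp, q, hq, hpq, hle, hpq'⟩ := hP m.toNat (by omega)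
    have cx : ∀ a : ℤ, (((n : ℤ) - 1 - (13 * a + (((n : ZMod 13) - 1 - xr).val : ℤ)) : ℤ) : ZMod 13)
        = xr := by
      intro a; rw [Int.cast_sub, cast13]; push_cast; ring
    have cy : ∀ a : ℤ, (((13 * a + (yr.val : ℤ)) : ℤ) : ZMod 13) = yr := fun a => cast13 a yr
    generalize (((n : ZMod 13) - 1 - xr).val) = x0 at *
    generalize yr.val = y0 at *
    refine ⟨((n : ℤ) - 1 - (13 * (p : ℤ) + x0), (13 * (q : ℤ) + y0)),
      ⟨by simp only; omega, by simp only; omega, by simp only; omega, by simp only; omega⟩,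
      by simp only [lin]; omega, ?_⟩
    refine forall4 ?_ ?_ ?_ ?_ <;> intro hk <;> simp only [lin0, lin1, lin2, lin3]
    · refine ⟨mem_spec (n := n) 3 p hp (13 * (p : ℤ) + x0) (by omega) (by omega), ?_⟩
      rw [cx]; exact hx
    · refine ⟨mem_spec (n := n) 0 q hq (13 * (q : ℤ) + y0) (by omega) (by omega), ?_⟩
      rw [cy]; exact hy
    · exact absurd rfl hk
    · constructor
      · have := mem_spec (n := n) 3 (p - q) hpq' ((13 * (p : ℤ) + x0) - (13 * (q : ℤ) + y0))
          (by omega) (by omega)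
        convert this using 1
        simp only [form]; ring
      · rw [Int.cast_add, cx, cy]; exact hs
  · -- top left corner: x = x', y = n - 1 - y'
    have hs26 : 26 ≤ (n - 1) + d := by
      by_contra h
      apply hnd
      have := small_spec (n := n) h0 h1 4 ((n - 1) + d) (by omega) (by omega)
      have e : form n 4 ((n - 1) + d) = d := by simp only [form]; ring
      rwa [e] at this
    obtain ⟨m, hm⟩ := dvd13 (((n - 1) + d) - (xr.val : ℤ)
        - (((n : ZMod 13) - 1 - yr).val : ℤ)) (by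
      push_cast; rw [ZMod.natCast_zmod_val, ZMod.natCast_zmod_val, ← hxy]; ring)
    have vx := val_lt xr
    have vy := val_lt ((n : ZMod 13) - 1 - yr)
    obtain ⟨p, hp, q, hq, hpq, hle, hpq'⟩ := hP m.toNat (by omega)
    have cy : ∀ a : ℤ, (((n : ℤ) - 1 - (13 * a + (((n : ZMod 13) - 1 - yr).val : ℤ)) : ℤ) : ZMod 13)
        = yr := by
      intro a; rw [Int.cast_sub, cast13]; push_cast; ring
    have cx : ∀ a : ℤ, (((13 * a + (xr.val : ℤ)) : ℤ) : ZMod 13) = xr := fun a => cast13 a xr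
    generalize (((n : ZMod 13) - 1 - yr).val) = y0 at *
    generalize xr.val = x0 at *
    refine ⟨((13 * (p : ℤ) + x0), (n : ℤ) - 1 - (13 * (q : ℤ) + y0)),
      ⟨by simp only; omega, by simp only; omega, by simp only; omega, by simp only; omega⟩,
      by simp only [lin]; omega, ?_⟩
    refine forall4 ?_ ?_ ?_ ?_ <;> intro hk <;> simp only [lin0, lin1, lin2, lin3]
    · refine ⟨mem_spec (n := n) 0 p hp (13 * (p : ℤ) + x0) (by omega) (by omega), ?_⟩
      rw [cx]; exact hx
    · refine ⟨mem_spec (n := n) 3 q hq (13 * (q : ℤ) + y0) (by omega) (by omega), ?_⟩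
      rw [cy]; exact hy
    · exact absurd rfl hk
    · constructor
      · have := mem_spec (n := n) 2 (p - q) hpq' ((13 * (p : ℤ) + x0) - (13 * (q : ℤ) + y0))
          (by omega) (by omega)
        convert this using 1
        simp only [form]; ring
      · rw [Int.cast_add, cx, cy]; exact hs

theorem exist_R (b : Bool) (y : ℤ) (hy0 : 0 ≤ y) (hy1 : y < n)
    (hny : y ∉ spec P n) : ∃ z, onBoard n z ∧ lin 1 z = y ∧
      ∀ k, k ≠ 1 → lin k z ∈ spec P n ∧ pat k ((lin k z : ℤ) : ZMod 13) = b := by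
  obtain ⟨xr, hx, hd, hs⟩ := pat_R b (y : ZMod 13)
  have hy26 : 26 ≤ y := by
    by_contra h
    exact hny (small_spec (n := n) h0 h1 0 y hy0 (by omega))
  obtain ⟨m, hm⟩ := dvd13 (2 * y - ((xr + (y : ZMod 13)).val : ℤ)
      - (((y : ZMod 13) - xr).val : ℤ)) (by
    push_cast; rw [ZMod.natCast_zmod_val, ZMod.natCast_zmod_val]; ring)
  have va := val_lt (xr + (y : ZMod 13))
  have vb := val_lt ((y : ZMod 13) - xr)
  obtain ⟨p, hp, q, hq, hpq, hle, hpq'⟩ := hP m.toNat (by omega)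
  have ca : ∀ a : ℤ, (((13 * a + ((xr + (y : ZMod 13)).val : ℤ)) : ℤ) : ZMod 13)
      = xr + (y : ZMod 13) := fun a => cast13 a _
  have cb : ∀ a : ℤ, (((13 * a + (((y : ZMod 13) - xr).val : ℤ)) : ℤ) : ZMod 13)
      = (y : ZMod 13) - xr := fun a => cast13 a _
  generalize (xr + (y : ZMod 13)).val = a0 at *
  generalize ((y : ZMod 13) - xr).val = b0 at *
  have hpq2 : q < p := by
    by_contra h
    have hqp : q = p := by omega
    apply hny
    have e : y = form n 0 y := rfl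
    rw [e]
    exact mem_spec (n := n) 0 p hp y (by omega) (by omega)
  have esum : y - (13 * (q : ℤ) + b0) + y = 13 * (p : ℤ) + a0 := by omega
  have ediff : y - (13 * (q : ℤ) + b0) - y = -(13 * (q : ℤ) + b0) := by ring
  refine ⟨(y - (13 * (q : ℤ) + b0), y), ⟨by simp only; omega, by simp only; omega,
    by simp only; omega, by simp only; omega⟩, rfl, ?_⟩
  refine forall4 ?_ ?_ ?_ ?_ <;> intro hk <;> simp only [lin0, lin1, lin2, lin3]
  · constructor
    · have := mem_spec (n := n) 8 (p - q) hpq' ((13 * (p : ℤ) + a0) - (13 * (q : ℤ) + b0))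
        (by omega) (by omega)
      convert this using 1
      simp only [form]; omega
    · rw [Int.cast_sub, cb]
      convert hx using 2
      ring
  · exact absurd rfl hk
  · constructor
    · rw [ediff]
      exact mem_spec (n := n) 1 q hq (13 * (q : ℤ) + b0) (by omega) (by omega)
    · rw [ediff, Int.cast_neg, cb]
      convert hd using 2
      ring
  · constructor
    · rw [esum]
      exact mem_spec (n := n) 0 p hp (13 * (p : ℤ) + a0) (by omega) (by omega)
    · rw [esum, ca]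
      exact hs

theorem exist_C (b : Bool) (x : ℤ) (hx0 : 0 ≤ x) (hx1 : x < n)
    (hnx : x ∉ spec P n) : ∃ z, onBoard n z ∧ lin 0 z = x ∧
      ∀ k, k ≠ 0 → lin k z ∈ spec P n ∧ pat k ((lin k z : ℤ) : ZMod 13) = b := by
  obtain ⟨yr, hy, hd, hs⟩ := pat_C b (x : ZMod 13)
  have hx26 : 26 ≤ x := by
    by_contra h
    exact hnx (small_spec (n := n) h0 h1 0 x hx0 (by omega))
  obtain ⟨m, hm⟩ := dvd13 (2 * x - (((x : ZMod 13) + yr).val : ℤ)
      - (((x : ZMod 13) - yr).val : ℤ)) (by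
    push_cast; rw [ZMod.natCast_zmod_val, ZMod.natCast_zmod_val]; ring)
  have va := val_lt ((x : ZMod 13) + yr)
  have vb := val_lt ((x : ZMod 13) - yr)
  obtain ⟨p, hp, q, hq, hpq, hle, hpq'⟩ := hP m.toNat (by omega)
  have ca : ∀ a : ℤ, (((13 * a + (((x : ZMod 13) + yr).val : ℤ)) : ℤ) : ZMod 13)
      = (x : ZMod 13) + yr := fun a => cast13 a _
  have cb : ∀ a : ℤ, (((13 * a + (((x : ZMod 13) - yr).val : ℤ)) : ℤ) : ZMod 13)
      = (x : ZMod 13) - yr := fun a => cast13 a _
  generalize ((x : ZMod 13) + yr).val = a0 at *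
  generalize ((x : ZMod 13) - yr).val = b0 at *
  have hpq2 : q < p := by
    by_contra h
    have hqp : q = p := by omega
    apply hnx
    have e : x = form n 0 x := rfl
    rw [e]
    exact mem_spec (n := n) 0 p hp x (by omega) (by omega)
  have esum : x + (x - (13 * (q : ℤ) + b0)) = 13 * (p : ℤ) + a0 := by omega
  have ediff : x - (x - (13 * (q : ℤ) + b0)) = (13 * (q : ℤ) + b0) := by ring
  refine ⟨(x, x - (13 * (q : ℤ) + b0)), ⟨by simp only; omega, by simp only; omega,
    by simp only; omega, by simp only; omega⟩, rfl, ?_⟩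
  refine forall4 ?_ ?_ ?_ ?_ <;> intro hk <;> simp only [lin0, lin1, lin2, lin3]
  · exact absurd rfl hk
  · constructor
    · have := mem_spec (n := n) 8 (p - q) hpq' ((13 * (p : ℤ) + a0) - (13 * (q : ℤ) + b0))
        (by omega) (by omega)
      convert this using 1
      simp only [form]; omega
    · rw [Int.cast_sub, cb]
      convert hy using 2
      ring
  · constructor
    · rw [ediff]
      exact mem_spec (n := n) 0 q hq (13 * (q : ℤ) + b0) (by omega) (by omega)
    · rw [ediff, cb]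
      exact hd
  · constructor
    · rw [esum]
      exact mem_spec (n := n) 0 p hp (13 * (p : ℤ) + a0) (by omega) (by omega)
    · rw [esum, ca]
      exact hs

end exist


noncomputable def rng (n : ℕ) (k : Fin 4) : Finset ℤ :=
  match k with
  | 0 => Finset.Ico 0 (n : ℤ)
  | 1 => Finset.Ico 0 (n : ℤ)
  | 2 => Finset.Ioo (-(n : ℤ)) (n : ℤ)
  | 3 => Finset.Icc 0 (2 * ((n : ℤ) - 1))

/-- The reduction: a good additive set `P` gives an irredundant set missing `O(|P|)` lines. -/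
theorem reduction (P : Finset ℕ) (n : ℕ) (hn : 1 ≤ n) (h0 : 0 ∈ P) (h1 : 1 ∈ P)
    (hP : Good P (2 * n)) : 6 * n ≤ upperIrr (queens n) + 2 + 900 * P.card := by
  classical
  let T' : Finset (Σ _ : Fin 4, ℤ) := Finset.univ.sigma (fun k => rng n k \ spec P n)
  let e : (Σ _ : Fin 4, ℤ) ↪ Fin 4 × ℤ :=
    ⟨fun x => (x.1, x.2), by
      rintro ⟨a, b⟩ ⟨c, d⟩ h
      simp only [Prod.mk.injEq] at h
      obtain ⟨rfl, rfl⟩ := h
      rfl⟩
  let T : Finset (Fin 4 × ℤ) := T'.map e
  have hTcard : T.card = ∑ k : Fin 4, (rng n k \ spec P n).card := by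
    rw [Finset.card_map, Finset.card_sigma]
  have hmem : ∀ l ∈ T, l.2 ∈ rng n l.1 ∧ l.2 ∉ spec P n := by
    intro l hl
    obtain ⟨x, hx, rfl⟩ := Finset.mem_map.1 hl
    have := (Finset.mem_sigma.1 hx).2
    exact Finset.mem_sdiff.1 this
  have hex : ∀ (b : Bool), ∀ l ∈ T, ∃ z, onBoard n z ∧ lin l.1 z = l.2 ∧
      ∀ k, k ≠ l.1 → lin k z ∈ spec P n ∧ pat k ((lin k z : ℤ) : ZMod 13) = b := by
    intro b l hl
    obtain ⟨hr, hs⟩ := hmem l hl
    obtain ⟨k, t⟩ := l
    simp only at hr hs ⊢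
    revert hr hs
    revert k
    refine forall4 ?_ ?_ ?_ ?_ <;> intro _ hr hs
    · simp only [rng, Finset.mem_Ico] at hr
      exact exist_C h0 h1 hP b t hr.1 hr.2 hs
    · simp only [rng, Finset.mem_Ico] at hr
      exact exist_R h0 h1 hP b t hr.1 hr.2 hs
    · simp only [rng, Finset.mem_Ioo] at hr
      exact exist_D h0 h1 hP b t hr.1 hr.2 hs
    · simp only [rng, Finset.mem_Icc] at hr
      exact exist_A h0 h1 hP b t hr.1 hr.2 hs
  have hmain := construction n T
    (fun k t => t ∈ spec P n ∧ pat k ((t : ℤ) : ZMod 13) = true)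
    (fun k t => t ∈ spec P n ∧ pat k ((t : ℤ) : ZMod 13) = false)
    (hex true) (hex false)
    (fun l hl => ⟨fun h => (hmem l hl).2 h.1, fun h => (hmem l hl).2 h.1⟩)
    (fun k t h h' => by
      have := h.2.symm.trans h'.2
      exact absurd this (by decide))
  rw [hTcard, Fin.sum_univ_four] at hmain
  have hs := card_spec P n
  have a0 := Finset.le_card_sdiff (spec P n) (rng n 0)
  have a1 := Finset.le_card_sdiff (spec P n) (rng n 1)
  have a2 := Finset.le_card_sdiff (spec P n) (rng n 2)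
  have a3 := Finset.le_card_sdiff (spec P n) (rng n 3)
  have c0 : (rng n 0).card = n := by simp [rng]
  have c1 : (rng n 1).card = n := by simp [rng]
  have c2 : (rng n 2).card = 2 * n - 1 := by
    simp only [rng, Int.card_Ioo]; omega
  have c3 : (rng n 3).card = 2 * n - 1 := by
    simp only [rng, Int.card_Icc]; omega
  omega

end Lo

end Pool.QEX53
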