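import Pool.Agent.H53.QEX.Defs

/-!
# QEX: an irredundant set gives a set of pairs with many differences (after helper58's UpperBound)
-/

set_option autoImplicit false

namespace Pool.QEX53

namespace Up

/-- the four line directions -/
def lin {n : ℕ} (k : Fin 4) (z : Fin n × Fin n) : ℤ :=
  match k with
  | 0 => z.1.val
  | 1 => z.2.val
  | 2 => (z.1.val : ℤ) - z.2.val
  | 3 => (z.1.val : ℤ) + z.2.val

theorem forall4 {p : Fin 4 → Prop} (h0 : p 0) (h1 : p 1) (h2 : p 2) (h3 : p 3) : ∀ k, p k := by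
  intro k
  fin_cases k
  · exact h0
  · exact h1
  · exact h2
  · exact h3

theorem closed_iff {n : ℕ} (v w : Fin n × Fin n) :
    InClosedNbhd (queens n) v w ↔ ∃ k, lin k v = lin k w := by
  constructor
  · rintro (rfl | ⟨_, h⟩)
    · exact ⟨0, rfl⟩
    · rcases h with h | h | h | h
      · exact ⟨0, by show (v.1.val : ℤ) = w.1.val; rw [h]⟩
      · exact ⟨1, by show (v.2.val : ℤ) = w.2.val; rw [h]⟩
      · exact ⟨2, h⟩
      · exact ⟨3, h⟩
  · intro h
    by_cases hvw : w = v
    · exact Or.inl hvw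
    · right
      refine ⟨fun e => hvw e.symm, ?_⟩
      obtain ⟨k, hk⟩ := h
      revert hk
      refine forall4 (p := fun k => lin k v = lin k w → _) ?_ ?_ ?_ ?_ k
      · intro h
        have h : (v.1.val : ℤ) = w.1.val := h
        exact Or.inl (Fin.ext (by exact_mod_cast h))
      · intro h
        have h : (v.2.val : ℤ) = w.2.val := h
        exact Or.inr (Or.inl (Fin.ext (by exact_mod_cast h)))
      · intro h; exact Or.inr (Or.inr (Or.inl h))
      · intro h; exact Or.inr (Or.inr (Or.inr h))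

/-- the range of values of each direction -/
noncomputable def rng (n : ℕ) (k : Fin 4) : Finset ℤ :=
  match k with
  | 0 => Finset.Ico 0 (n : ℤ)
  | 1 => Finset.Ico 0 (n : ℤ)
  | 2 => Finset.Ioo (-(n : ℤ)) n
  | 3 => Finset.Ico 0 (2 * (n : ℤ) - 1)

theorem lin_mem {n : ℕ} (k : Fin 4) (z : Fin n × Fin n) : lin k z ∈ rng n k := by
  have h1 := z.1.isLt
  have h2 := z.2.isLt
  revert k
  refine forall4 ?_ ?_ ?_ ?_
  · simp only [lin, rng, Finset.mem_Ico]; omega
  · simp only [lin, rng, Finset.mem_Ico]; omega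
  · simp only [lin, rng, Finset.mem_Ioo]; omega
  · simp only [lin, rng, Finset.mem_Ico]; omega

/-- The private neighbours of the members assigned to rows of an irredundant set. -/
theorem key (n : ℕ) (hn : 1 ≤ n) (S : Finset (Fin n × Fin n)) (hS : Irredundant (queens n) S) :
    ∃ (u0 u1 u2 u3 : ℕ) (A : Finset (ℤ × ℤ)), S.card + (u0 + u1 + u2 + u3) + 2 = 6 * n ∧
      u0 + (A.image (fun z => z.1 - z.2)).card = n ∧ (A.image (fun z => z.1)).card ≤ u3 ∧
      (A.image (fun z => z.2)).card ≤ u2 ∧ (A.image (fun z => z.1 + z.2)).card ≤ u1 := by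
  classical
  have hS' : ∀ v : Fin n × Fin n, ∃ p : (Fin n × Fin n) × Fin 4, v ∈ S →
      lin p.2 v = lin p.2 p.1 ∧ ∀ u ∈ S, u ≠ v → ∀ k, lin k u ≠ lin k p.1 := by
    intro v
    by_cases hv : v ∈ S
    · obtain ⟨w, hw, hw'⟩ := hS v hv
      obtain ⟨k, hk⟩ := (closed_iff v w).1 hw
      refine ⟨(w, k), fun _ => ⟨hk, ?_⟩⟩
      intro u hu huv j hj
      exact hw' u hu huv ((closed_iff u w).2 ⟨j, hj⟩)
    · exact ⟨(v, 0), fun h => absurd h hv⟩
  choose p hp using hS'
  set w : Fin n × Fin n → Fin n × Fin n := fun v => (p v).1 with hw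
  set κ : Fin n × Fin n → Fin 4 := fun v => (p v).2 with hκ
  have hp1 : ∀ v ∈ S, lin (κ v) v = lin (κ v) (w v) := fun v hv => (hp v hv).1
  have hp2 : ∀ v ∈ S, ∀ u ∈ S, ∀ k, lin k u = lin k (w v) → u = v := by
    intro v hv u hu k hk
    by_contra hne
    exact (hp v hv).2 u hu hne k hk
  -- members assigned to a direction, and the unassigned lines
  set T : Fin 4 → Finset (Fin n × Fin n) := fun k => S.filter (fun v => κ v = k) with hT
  set U : Fin 4 → Finset ℤ := fun k => rng n k \ (T k).image (lin k) with hU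
  have hTmem : ∀ k, ∀ v ∈ T k, v ∈ S ∧ κ v = k := by
    intro k v hv
    exact Finset.mem_filter.1 hv
  have hinj : ∀ k, ∀ v ∈ T k, ∀ u ∈ T k, lin k u = lin k v → u = v := by
    intro k v hv u hu h
    obtain ⟨hvS, hvk⟩ := hTmem k v hv
    obtain ⟨huS, _⟩ := hTmem k u hu
    have h1 := hp1 v hvS
    rw [hvk] at h1
    exact hp2 v hvS u huS k (h.trans h1)
  have hcard : ∀ k, (U k).card + (T k).card = (rng n k).card := by
    intro k
    have hsub : (T k).image (lin k) ⊆ rng n k := by
      intro x hx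
      obtain ⟨v, _, rfl⟩ := Finset.mem_image.1 hx
      exact lin_mem k v
    have h1 : ((T k).image (lin k)).card = (T k).card := by
      apply Finset.card_image_of_injOn
      intro v hv u hu h
      exact hinj k u (by simpa using hu) v (by simpa using hv) h
    have h2 := Finset.card_sdiff_add_card_eq_card hsub
    rw [h1] at h2
    exact h2
  have hsum : (T 0).card + (T 1).card + (T 2).card + (T 3).card = S.card := by
    have h := Finset.card_eq_sum_card_fiberwise (s := S) (t := (Finset.univ : Finset (Fin 4)))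
      (f := κ) (fun x _ => by simp)
    rw [h, Fin.sum_univ_four]
  have r0 : (rng n 0).card = n := by simp [rng]
  have r1 : (rng n 1).card = n := by simp [rng]
  have r2 : (rng n 2).card = 2 * n - 1 := by simp only [rng, Int.card_Ioo]; omega
  have r3 : (rng n 3).card = 2 * n - 1 := by simp only [rng, Int.card_Ico]; omega
  have c0 := hcard 0
  have c1 := hcard 1
  have c2 := hcard 2
  have c3 := hcard 3
  rw [r0] at c0
  rw [r1] at c1
  rw [r2] at c2
  rw [r3] at c3
  -- the private neighbours of the members assigned to rows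
  have hun : ∀ v ∈ T 0, ∀ k, k ≠ 0 → lin k (w v) ∈ U k := by
    intro v hv k hk
    obtain ⟨hvS, hvk⟩ := hTmem 0 v hv
    refine Finset.mem_sdiff.2 ⟨lin_mem k _, ?_⟩
    intro h
    obtain ⟨u, hu, huk⟩ := Finset.mem_image.1 h
    obtain ⟨huS, huκ⟩ := hTmem k u hu
    have e := hp2 v hvS u huS k huk
    rw [e] at huκ
    exact hk (huκ.symm.trans hvk)
  refine ⟨(U 0).card, (U 1).card, (U 2).card, (U 3).card,
    (T 0).image (fun v => (lin 3 (w v), - lin 2 (w v))), by omega, ?_, ?_, ?_, ?_⟩
  · rw [Finset.image_image, Finset.card_image_of_injOn, c0]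
    intro v hv u hu h
    have hv' : v ∈ T 0 := by simpa using hv
    have hu' : u ∈ T 0 := by simpa using hu
    have h' : ((w v).1.val : ℤ) + (w v).2.val - (-((w v).1.val - (w v).2.val)) =
        (w u).1.val + (w u).2.val - (-((w u).1.val - (w u).2.val)) := h
    have hx : lin 0 (w v) = lin 0 (w u) := by
      show ((w v).1.val : ℤ) = (w u).1.val
      omega
    obtain ⟨hvS, hvk⟩ := hTmem 0 v hv'
    obtain ⟨huS, huk⟩ := hTmem 0 u hu'
    have a1 := hp1 v hvS
    rw [hvk] at a1
    exact hp2 u huS v hvS 0 (a1.trans hx)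
  · apply Finset.card_le_card
    intro x hx
    obtain ⟨g, hg, rfl⟩ := Finset.mem_image.1 hx
    obtain ⟨v, hv, rfl⟩ := Finset.mem_image.1 hg
    exact hun v hv 3 (by decide)
  · refine (Finset.card_le_card (t := (U 2).image (fun x => -x)) ?_).trans Finset.card_image_le
    intro x hx
    obtain ⟨g, hg, rfl⟩ := Finset.mem_image.1 hx
    obtain ⟨v, hv, rfl⟩ := Finset.mem_image.1 hg
    exact Finset.mem_image.2 ⟨_, hun v hv 2 (by decide), rfl⟩
  · refine (Finset.card_le_card (t := (U 1).image (fun x => 2 * x)) ?_).trans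
      Finset.card_image_le
    intro x hx
    obtain ⟨g, hg, rfl⟩ := Finset.mem_image.1 hx
    obtain ⟨v, hv, rfl⟩ := Finset.mem_image.1 hg
    refine Finset.mem_image.2 ⟨_, hun v hv 1 (by decide), ?_⟩
    show 2 * ((w v).2.val : ℤ) =
      ((w v).1.val : ℤ) + (w v).2.val + (-((w v).1.val - (w v).2.val))
    ring

end Up

end Pool.QEX53
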