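import Mathlib

/-!
# QEX: counting in a finite field and covering by translates
-/

set_option autoImplicit false

namespace Pool.QEX53

open Finset

section Count

variable {F : Type} [Field F] [Fintype F] [DecidableEq F]

/-- `S + r W`. -/
def sw (S W : Finset F) (r : F) : Finset F :=
  (S ×ˢ W).image (fun z => z.1 + r * z.2)

/-- The number of coincidences in `S + r W`. -/
def col (S W : Finset F) (r : F) : ℕ :=
  (((S ×ˢ W) ×ˢ (S ×ˢ W)).filter
    (fun u => u.1.1 + r * u.1.2 = u.2.1 + r * u.2.2)).card

theorem cs (S W : Finset F) (r : F) :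
    (S.card * W.card) ^ 2 ≤ (sw S W r).card * col S W r := by
  have h := Finset.card_eq_sum_card_image (fun z : F × F => z.1 + r * z.2) (S ×ˢ W)
  have h2 : col S W r = ∑ c ∈ sw S W r,
      ((S ×ˢ W).filter (fun z => z.1 + r * z.2 = c)).card ^ 2 := by
    unfold col
    rw [Finset.card_eq_sum_card_fiberwise
      (f := fun u : (F × F) × (F × F) => u.1.1 + r * u.1.2) (t := sw S W r)]
    · refine Finset.sum_congr rfl (fun c _ => ?_)
      rw [sq, ← Finset.card_product]
      congr 1
      ext ⟨x, y⟩
      simp only [Finset.mem_filter, Finset.mem_product]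
      constructor
      · rintro ⟨⟨⟨hx, hy⟩, h⟩, hc⟩
        exact ⟨⟨hx, hc⟩, hy, h.symm.trans hc⟩
      · rintro ⟨⟨hx, hc⟩, hy, hc'⟩
        exact ⟨⟨⟨hx, hy⟩, hc.trans hc'.symm⟩, hc⟩
    · intro u hu
      have hu' := (Finset.mem_product.1 (Finset.mem_filter.1 hu).1).1
      exact Finset.mem_image.2 ⟨u.1, hu', rfl⟩
  rw [← Finset.card_product, h, h2]
  exact sq_sum_le_card_mul_sum_sq

theorem sum_col (S W : Finset F) :
    ∑ r : F, col S W r ≤ Fintype.card F * (S.card * W.card) + (S.card * W.card) ^ 2 := by
  classical
  have h1 : ∑ r : F, col S W r = ∑ u ∈ (S ×ˢ W) ×ˢ (S ×ˢ W),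
      (univ.filter (fun r : F => u.1.1 + r * u.1.2 = u.2.1 + r * u.2.2)).card := by
    unfold col
    simp only [Finset.card_filter]
    exact Finset.sum_comm
  have h2 : ∀ u ∈ (S ×ˢ W) ×ˢ (S ×ˢ W),
      (univ.filter (fun r : F => u.1.1 + r * u.1.2 = u.2.1 + r * u.2.2)).card ≤
        1 + (if u.1 = u.2 then Fintype.card F else 0) := by
    intro u _
    by_cases h : u.1 = u.2
    · rw [if_pos h]
      exact (Finset.card_le_univ _).trans (Nat.le_add_left _ _)
    · rw [if_neg h, add_zero, Finset.card_le_one]
      intro r hr r' hr'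
      have e := (Finset.mem_filter.1 hr).2
      have e' := (Finset.mem_filter.1 hr').2
      by_cases hw : u.1.2 = u.2.2
      · rw [hw] at e
        exact absurd (Prod.ext (add_right_cancel e) hw) h
      · have hw' : u.1.2 - u.2.2 ≠ 0 := sub_ne_zero.2 hw
        have : (r - r') * (u.1.2 - u.2.2) = 0 := by linear_combination e - e'
        rcases mul_eq_zero.1 this with h0 | h0
        · exact sub_eq_zero.1 h0
        · exact absurd h0 hw'
  rw [h1]
  refine (Finset.sum_le_sum h2).trans ?_
  rw [Finset.sum_add_distrib, Finset.sum_const, smul_eq_mul, mul_one, Finset.card_product,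
    Finset.card_product]
  have h3 : ∑ u ∈ (S ×ˢ W) ×ˢ (S ×ˢ W), (if u.1 = u.2 then Fintype.card F else 0) =
      Fintype.card F * (S.card * W.card) := by
    rw [Finset.sum_product]
    have : ∀ x ∈ S ×ˢ W, ∑ y ∈ S ×ˢ W, (if x = y then Fintype.card F else 0) =
        Fintype.card F := by
      intro x hx
      rw [Finset.sum_ite_eq, if_pos hx]
    rw [Finset.sum_congr rfl this, Finset.sum_const, Finset.card_product, smul_eq_mul, mul_comm]
  rw [h3, sq]
  omega

/-- There is a multiplier `r` for which `S + r W` is large. -/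
theorem exists_mult (S W : Finset F) (hS : S.Nonempty) (hW : W.Nonempty) :
    ∃ r : F, Fintype.card F * (S.card * W.card) ≤
      (sw S W r).card * (Fintype.card F + S.card * W.card) := by
  by_contra hcon
  push Not at hcon
  set T := S.card * W.card with hT
  set q := Fintype.card F with hq
  have hTpos : 0 < T := Nat.mul_pos (Finset.card_pos.2 hS) (Finset.card_pos.2 hW)
  have h1 : ∀ r ∈ (univ : Finset F), T * (q + T) < q * col S W r := by
    intro r _
    have a := cs S W r
    rw [← hT] at a
    have b := hcon r
    have hsw : 0 < (sw S W r).card := by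
      apply Nat.pos_of_ne_zero
      intro h0
      rw [h0, zero_mul] at a
      have : 0 < T ^ 2 := by positivity
      omega
    have c : (T * (q + T)) * T * (sw S W r).card < (q * col S W r) * T * (sw S W r).card := by
      calc (T * (q + T)) * T * (sw S W r).card = ((sw S W r).card * (q + T)) * T ^ 2 := by ring
        _ < (q * T) * T ^ 2 := by
            exact Nat.mul_lt_mul_of_pos_right b (by positivity)
        _ ≤ (q * T) * ((sw S W r).card * col S W r) := Nat.mul_le_mul_left _ a
        _ = (q * col S W r) * T * (sw S W r).card := by ring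
    exact lt_of_mul_lt_mul_right (lt_of_mul_lt_mul_right c (Nat.zero_le _)) (Nat.zero_le _)
  have h2 := Finset.sum_lt_sum_of_nonempty (Finset.univ_nonempty (α := F)) h1
  rw [Finset.sum_const, ← Finset.mul_sum, Finset.card_univ, smul_eq_mul, ← hq] at h2
  have h3 := sum_col S W
  rw [← hT, ← hq] at h3
  have h4 : q * ∑ r : F, col S W r ≤ q * (q * T + T ^ 2) := Nat.mul_le_mul_left _ h3
  have h5 : q * (T * (q + T)) = q * (q * T + T ^ 2) := by ring
  omega

end Count

section Cover

variable {G : Type} [AddCommGroup G] [Fintype G] [DecidableEq G]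

/-- If `S` has at least half of the elements of `G` then few translates of `S` cover. -/
theorem cover (S : Finset G) (hS : Fintype.card G ≤ 2 * S.card) :
    ∀ (s : ℕ) (U : Finset G), U.card < 2 ^ s → ∃ A : Finset G, A.card ≤ s ∧
      ∀ h ∈ U, ∃ a ∈ A, h - a ∈ S := by
  intro s
  induction s with
  | zero =>
    intro U hU
    have : U = ∅ := by
      rw [pow_zero, Nat.lt_one_iff, Finset.card_eq_zero] at hU
      exact hU
    subst this
    exact ⟨∅, by simp, by simp⟩
  | succ s ih =>
    intro U hU
    have h1 : ∀ h : G, S.card = (univ.filter (fun a : G => h - a ∈ S)).card := by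
      intro h
      apply Finset.card_bij (fun x _ => h - x)
      · intro x hx
        simp only [Finset.mem_filter, Finset.mem_univ, true_and]
        rw [sub_sub_cancel]
        exact hx
      · intro x _ y _ hxy
        exact sub_right_injective hxy
      · intro a ha
        exact ⟨h - a, (Finset.mem_filter.1 ha).2, sub_sub_cancel h a⟩
    obtain ⟨a, ha⟩ : ∃ a : G, U.card ≤ 2 * (U.filter (fun h => h - a ∈ S)).card := by
      by_contra hcon
      push Not at hcon
      have h2 : ∑ a : G, (U.filter (fun h => h - a ∈ S)).card =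
          ∑ h ∈ U, (univ.filter (fun a : G => h - a ∈ S)).card := by
        simp only [Finset.card_filter]
        exact Finset.sum_comm
      have h3 : ∑ a : G, 2 * (U.filter (fun h => h - a ∈ S)).card < ∑ a : G, U.card :=
        Finset.sum_lt_sum_of_nonempty ⟨0, Finset.mem_univ 0⟩ (fun a _ => hcon a)
      rw [← Finset.mul_sum, h2, Finset.sum_const, Finset.card_univ, smul_eq_mul] at h3
      have h4 : ∑ h ∈ U, (univ.filter (fun a : G => h - a ∈ S)).card = U.card * S.card := by
        rw [Finset.sum_congr rfl (fun h _ => (h1 h).symm), Finset.sum_const, smul_eq_mul]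
      rw [h4] at h3
      have h5 : Fintype.card G * U.card ≤ 2 * (U.card * S.card) := by
        calc Fintype.card G * U.card ≤ (2 * S.card) * U.card := Nat.mul_le_mul_right _ hS
          _ = 2 * (U.card * S.card) := by ring
      omega
    have hsplit := Finset.card_filter_add_card_filter_not (s := U) (fun h => h - a ∈ S)
    obtain ⟨A, hA1, hA3⟩ := ih (U.filter (fun h => ¬ (h - a ∈ S))) (by
      rw [pow_succ] at hU
      omega)
    refine ⟨insert a A, (Finset.card_insert_le _ _).trans (by omega), ?_⟩
    intro h hh
    by_cases hq : h - a ∈ S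
    · exact ⟨a, Finset.mem_insert_self _ _, hq⟩
    · obtain ⟨b, hb, hb'⟩ := hA3 h (Finset.mem_filter.2 ⟨hh, hq⟩)
      exact ⟨b, Finset.mem_insert_of_mem hb, hb'⟩

end Cover

end Pool.QEX53
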