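import Pool.Agent.H53.QEX.BoardLo
import Pool.Agent.H53.QEX.BoardUp

/-!
# QEX: the exponent of `6 n - IR(Q_n)` is the reciprocal of the sums-differences exponent
-/

set_option autoImplicit false

namespace Pool.QEX53

open Finset

/-- The sums-differences inequality with exponent `β`. -/
def SumsDifferences (β : ℝ) : Prop :=
  ∀ A : Finset (ℤ × ℤ), ((A.image (fun z => z.1 - z.2)).card : ℝ) ≤
    ((max (A.image (fun z => z.1)).card (max (A.image (fun z => z.2)).card
      (A.image (fun z => z.1 + z.2)).card) : ℕ) : ℝ) ^ β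

/-- The largest of the numbers of values of `x`, `y` and `x + y`. -/
def big3 (A : Finset (ℤ × ℤ)) : ℕ :=
  max (A.image (fun z => z.1)).card (max (A.image (fun z => z.2)).card
    (A.image (fun z => z.1 + z.2)).card)

/-- The number of differences. -/
def difs (A : Finset (ℤ × ℤ)) : ℕ := (A.image (fun z => z.1 - z.2)).card

theorem big3_pos {A : Finset (ℤ × ℤ)} (hA : A.Nonempty) : 1 ≤ big3 A :=
  le_max_of_le_left (Finset.card_pos.2 (hA.image _))

theorem sd_two : SumsDifferences 2 := by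
  intro A
  have h1 : (A.image (fun z => z.1 - z.2)).card ≤
      (A.image (fun z => z.1)).card * (A.image (fun z => z.2)).card := by
    rw [← Finset.card_product]
    refine (Finset.card_le_card (t := ((A.image (fun z => z.1)) ×ˢ
      (A.image (fun z => z.2))).image (fun z => z.1 - z.2)) ?_).trans Finset.card_image_le
    intro x hx
    obtain ⟨z, hz, rfl⟩ := Finset.mem_image.1 hx
    exact Finset.mem_image.2 ⟨(z.1, z.2), Finset.mem_product.2
      ⟨Finset.mem_image_of_mem _ hz, Finset.mem_image_of_mem _ hz⟩, rfl⟩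
  change ((A.image (fun z => z.1 - z.2)).card : ℝ) ≤ ((big3 A : ℕ) : ℝ) ^ (2 : ℝ)
  rw [show (2 : ℝ) = ((2 : ℕ) : ℝ) by norm_num, Real.rpow_natCast, sq]
  have h2 : (A.image (fun z => z.1)).card ≤ big3 A := le_max_left _ _
  have h3 : (A.image (fun z => z.2)).card ≤ big3 A := le_max_of_le_right (le_max_left _ _)
  exact_mod_cast h1.trans (Nat.mul_le_mul h2 h3)

theorem one_le_of_sd {β : ℝ} (h : SumsDifferences β) : 1 ≤ β := by
  have h1 := h {((0 : ℤ), (0 : ℤ)), (1, 0)}
  have e1 : (({((0 : ℤ), (0 : ℤ)), (1, 0)} : Finset (ℤ × ℤ)).image (fun z => z.1 - z.2)).card = 2 := by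
    decide
  have e2 : max (({((0 : ℤ), (0 : ℤ)), (1, 0)} : Finset (ℤ × ℤ)).image (fun z => z.1)).card
      (max (({((0 : ℤ), (0 : ℤ)), (1, 0)} : Finset (ℤ × ℤ)).image (fun z => z.2)).card
        (({((0 : ℤ), (0 : ℤ)), (1, 0)} : Finset (ℤ × ℤ)).image (fun z => z.1 + z.2)).card) = 2 := by
    decide
  rw [e1, e2] at h1
  by_contra hlt
  have h2 : ((2 : ℕ) : ℝ) ^ β < ((2 : ℕ) : ℝ) ^ (1 : ℝ) :=
    Real.rpow_lt_rpow_of_exponent_lt (by norm_num) (not_le.1 hlt)
  rw [Real.rpow_one] at h2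
  linarith

theorem isLeast_sInf : IsLeast {β : ℝ | SumsDifferences β} (sInf {β : ℝ | SumsDifferences β}) := by
  have hne : {β : ℝ | SumsDifferences β}.Nonempty := ⟨2, sd_two⟩
  have hbdd : BddBelow {β : ℝ | SumsDifferences β} := ⟨1, fun β h => one_le_of_sd h⟩
  refine ⟨?_, fun β h => csInf_le hbdd h⟩
  intro A
  rcases A.eq_empty_or_nonempty with rfl | hA
  · rw [Finset.image_empty, Finset.card_empty]
    simp only [Nat.cast_zero]
    positivity
  · have hpos : (0 : ℝ) < ((big3 A : ℕ) : ℝ) := by exact_mod_cast big3_pos hA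
    have hcl : IsClosed {β : ℝ | ((A.image (fun z => z.1 - z.2)).card : ℝ) ≤
        ((big3 A : ℕ) : ℝ) ^ β} :=
      isClosed_le continuous_const (Real.continuous_const_rpow hpos.ne')
    exact closure_minimal (s := {β : ℝ | SumsDifferences β}) (fun β h => h A) hcl
      (csInf_mem_closure hne hbdd)

theorem upperIrr_attained {V : Type} [Fintype V] (G : SimpleGraph V) :
    ∃ S : Finset V, Irredundant G S ∧ S.card = upperIrr G := by
  have h : upperIrr G ∈ {k | ∃ S : Finset V, Irredundant G S ∧ S.card = k} := by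
    apply Nat.sSup_mem
    · refine ⟨0, ∅, ?_, rfl⟩
      intro v hv
      simp at hv
    · refine ⟨Fintype.card V, ?_⟩
      rintro k ⟨T, _, rfl⟩
      exact Finset.card_le_univ T
  exact h

/-- The deficiency is at least `n ^ (1 / β)`. -/
theorem deficiency_ge {β : ℝ} (hβ : SumsDifferences β) (n : ℕ) (hn : 1 ≤ n) :
    (n : ℝ) ^ (1 / β) ≤ 6 * (n : ℝ) - 2 - upperIrr (queens n) := by
  have h1 := one_le_of_sd hβ
  obtain ⟨S, hS, hcard⟩ := upperIrr_attained (queens n)
  obtain ⟨u0, u1, u2, u3, A, e1, e2, e3, e4, e5⟩ := Up.key n hn S hS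
  rw [hcard] at e1
  have h2 : (n : ℝ) ≤ ((u0 + u1 + u2 + u3 : ℕ) : ℝ) ^ β := by
    have h3 : (difs A : ℝ) ≤ ((big3 A : ℕ) : ℝ) ^ β := hβ A
    have h4 : (u0 : ℝ) ≤ (u0 : ℝ) ^ β := by
      rcases Nat.eq_zero_or_pos u0 with h0 | h0
      · rw [h0, Nat.cast_zero]
        positivity
      · exact Real.self_le_rpow_of_one_le (by exact_mod_cast h0) h1
    have h5 : (n : ℝ) = u0 + difs A := by exact_mod_cast e2.symm
    have h6 : (u0 : ℝ) ^ β + ((big3 A : ℕ) : ℝ) ^ β ≤ ((u0 : ℝ) + ((big3 A : ℕ) : ℝ)) ^ β :=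
      Real.add_rpow_le_rpow_add (by positivity) (by positivity) h1
    have h7 : (u0 : ℝ) + ((big3 A : ℕ) : ℝ) ≤ ((u0 + u1 + u2 + u3 : ℕ) : ℝ) := by
      have h8 : big3 A ≤ u1 + u2 + u3 :=
        max_le (e3.trans (by omega)) (max_le (e4.trans (by omega)) (e5.trans (by omega)))
      have h9 : u0 + big3 A ≤ u0 + u1 + u2 + u3 := by omega
      exact_mod_cast h9
    have h8 : ((u0 : ℝ) + ((big3 A : ℕ) : ℝ)) ^ β ≤ ((u0 + u1 + u2 + u3 : ℕ) : ℝ) ^ β :=
      Real.rpow_le_rpow (by positivity) h7 (by linarith)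
    linarith
  have h3 : (n : ℝ) ^ (1 / β) ≤ ((u0 + u1 + u2 + u3 : ℕ) : ℝ) := by
    have h4 := Real.rpow_le_rpow (Nat.cast_nonneg n) h2 (by positivity : 0 ≤ 1 / β)
    rw [← Real.rpow_mul (Nat.cast_nonneg _), mul_one_div, div_self (by linarith),
      Real.rpow_one] at h4
    exact h4
  have h4 : (upperIrr (queens n) : ℝ) + ((u0 + u1 + u2 + u3 : ℕ) : ℝ) + 2 = 6 * n := by
    exact_mod_cast e1
  linarith

/-- A set of pairs with many differences gives a small deficiency. -/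
theorem deficiency_le {β : ℝ} (hβ : 1 < β) (hn : ¬ SumsDifferences β) (δ : ℝ) (hδ : 0 < δ) :
    ∃ C : ℝ, ∀ n : ℕ, 1 ≤ n →
      6 * (n : ℝ) - upperIrr (queens n) ≤ C * (n : ℝ) ^ (1 / β + δ) := by
  unfold SumsDifferences at hn
  push Not at hn
  obtain ⟨A, hA⟩ := hn
  have hA' : ((big3 A : ℕ) : ℝ) ^ β < (difs A : ℝ) := hA
  have hne : A.Nonempty := by
    rw [Finset.nonempty_iff_ne_empty]
    rintro rfl
    have h0 : (difs ∅ : ℝ) = 0 := by
      unfold difs
      rw [Finset.image_empty, Finset.card_empty, Nat.cast_zero]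
    rw [h0] at hA'
    exact absurd hA' (not_lt.2 (by positivity))
  have hN1 := big3_pos hne
  have hN2 : 2 ≤ big3 A := by
    by_contra hlt
    have hN : big3 A = 1 := by omega
    rw [hN, Nat.cast_one, Real.one_rpow] at hA'
    have h1 : (A.image (fun z => z.1)).card ≤ 1 := hN ▸ le_max_left _ _
    have h2 : (A.image (fun z => z.2)).card ≤ 1 := hN ▸ le_max_of_le_right (le_max_left _ _)
    have h3 : difs A ≤ 1 := by
      unfold difs
      rw [Finset.card_le_one] at h1 h2 ⊢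
      intro a ha b hb
      obtain ⟨z, hz, rfl⟩ := Finset.mem_image.1 ha
      obtain ⟨w, hw, rfl⟩ := Finset.mem_image.1 hb
      rw [h1 _ (Finset.mem_image_of_mem _ hz) _ (Finset.mem_image_of_mem _ hw),
        h2 _ (Finset.mem_image_of_mem _ hz) _ (Finset.mem_image_of_mem _ hw)]
    have h4 : (difs A : ℝ) ≤ 1 := by exact_mod_cast h3
    linarith
  have hM3 : 3 ≤ difs A := by
    have h1 : (2 : ℝ) ^ (1 : ℝ) ≤ ((big3 A : ℕ) : ℝ) ^ β := by
      calc (2 : ℝ) ^ (1 : ℝ) ≤ (2 : ℝ) ^ β := Real.rpow_le_rpow_of_exponent_le (by norm_num) hβ.le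
        _ ≤ _ := Real.rpow_le_rpow (by norm_num) (by exact_mod_cast hN2) (by linarith)
    rw [Real.rpow_one] at h1
    have h2 : (2 : ℝ) < (difs A : ℝ) := lt_of_le_of_lt h1 hA'
    have h3 : 2 < difs A := by exact_mod_cast h2
    omega
  have hβ0 : β ≠ 0 := by linarith
  have hNM : ((big3 A : ℕ) : ℝ) ≤ (difs A : ℝ) ^ (1 / β) := by
    have h1 := Real.rpow_le_rpow (by positivity) hA'.le (by positivity : 0 ≤ 1 / β)
    rw [← Real.rpow_mul (Nat.cast_nonneg _), mul_one_div, div_self hβ0, Real.rpow_one] at h1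
    exact h1
  obtain ⟨C, hC⟩ := exists_good A (big3 A) (difs A) (le_max_left _ _)
    (le_max_of_le_right (le_max_left _ _)) (le_max_of_le_right (le_max_right _ _)) rfl hM3
    (1 / β) δ (by positivity) hδ hNM
  refine ⟨2 + 900 * C, ?_⟩
  intro n hn
  obtain ⟨P, h0, h1, hP, hPc⟩ := hC n hn
  have h2 := Lo.reduction P n hn h0 h1 hP
  have h3 : 6 * (n : ℝ) ≤ upperIrr (queens n) + 2 + 900 * (P.card : ℝ) := by exact_mod_cast h2
  have h4 : (1 : ℝ) ≤ (n : ℝ) ^ (1 / β + δ) :=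
    Real.one_le_rpow (by exact_mod_cast hn) (by positivity)
  have h5 : 900 * (P.card : ℝ) ≤ 900 * (C * (n : ℝ) ^ (1 / β + δ)) := by linarith
  linarith

/-- The exponent of the deficiency `6 n - IR(Q_n)` is the reciprocal of the best exponent in the
sums-differences inequality. -/
theorem main : ∃ α : ℝ, IsLeast {β : ℝ | SumsDifferences β} α ∧
    (∀ n : ℕ, 1 ≤ n → (n : ℝ) ^ (1 / α) ≤ 6 * (n : ℝ) - 2 - upperIrr (queens n)) ∧
    ∀ ε : ℝ, 0 < ε → ∃ C : ℝ, ∀ n : ℕ, 1 ≤ n →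
      6 * (n : ℝ) - upperIrr (queens n) ≤ C * (n : ℝ) ^ (1 / α + ε) := by
  have hleast := isLeast_sInf
  set α : ℝ := sInf {β : ℝ | SumsDifferences β} with hα
  have hα1 : 1 ≤ α := one_le_of_sd hleast.1
  refine ⟨α, hleast, fun n hn => deficiency_ge hleast.1 n hn, ?_⟩
  intro ε hε
  by_cases hθ : 1 / α + ε / 2 < 1
  · have hθ0 : 0 < 1 / α + ε / 2 := by positivity
    have hβ : 1 < 1 / (1 / α + ε / 2) := by
      rw [lt_div_iff₀ hθ0]
      linarith
    have hβα : 1 / (1 / α + ε / 2) < α := by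
      rw [div_lt_iff₀ hθ0]
      have : α * (1 / α + ε / 2) = 1 + α * (ε / 2) := by
        field_simp
      rw [this]
      have : 0 < α * (ε / 2) := by positivity
      linarith
    have hns : ¬ SumsDifferences (1 / (1 / α + ε / 2)) := fun h =>
      absurd (hleast.2 h) (not_le.2 hβα)
    obtain ⟨C, hC⟩ := deficiency_le hβ hns (ε / 2) (by positivity)
    refine ⟨C, ?_⟩
    intro n hn
    have h := hC n hn
    rw [one_div_one_div, add_assoc, add_halves] at h
    exact h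
  · refine ⟨6, ?_⟩
    intro n hn
    have h1 : (n : ℝ) ≤ (n : ℝ) ^ (1 / α + ε) :=
      Real.self_le_rpow_of_one_le (by exact_mod_cast hn) (by linarith)
    have h2 : (0 : ℝ) ≤ upperIrr (queens n) := Nat.cast_nonneg _
    linarith

end Pool.QEX53
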