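import Pool.Agent.H53.QEX.Cnt

/-!
# QEX: systems of residues, products and translates
-/

set_option autoImplicit false

namespace Pool.QEX53

open Finset

/-- Three sets of at most `K` residues such that every member of `S` is `x + y` with `x` in the
first, `y` in the second and `x - y` in the third set. -/
def Sys (p K : ℕ) (S : Finset (ZMod p)) : Prop :=
  ∃ X Y Z : Finset (ZMod p), X.card ≤ K ∧ Y.card ≤ K ∧ Z.card ≤ K ∧
    ∀ s ∈ S, ∃ x ∈ X, ∃ y ∈ Y, x + y = s ∧ x - y ∈ Z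

/-- The same for all residues. -/
def SysU (p K : ℕ) : Prop :=
  ∃ X Y Z : Finset (ZMod p), X.card ≤ K ∧ Y.card ≤ K ∧ Z.card ≤ K ∧
    ∀ s : ZMod p, ∃ x ∈ X, ∃ y ∈ Y, x + y = s ∧ x - y ∈ Z

theorem sys_zero (p : ℕ) : Sys p 1 {0} := by
  refine ⟨{0}, {0}, {0}, by simp, by simp, by simp, ?_⟩
  intro s hs
  rw [Finset.mem_singleton] at hs
  subst hs
  exact ⟨0, by simp, 0, by simp, by simp, by simp⟩

theorem card_sw_le {F : Type} [Field F] [DecidableEq F] {S W : Finset F} {K N : ℕ}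
    (hS : S.card ≤ K) (hW : W.card ≤ N) (r : F) : (sw S W r).card ≤ K * N := by
  unfold sw
  refine Finset.card_image_le.trans ?_
  rw [Finset.card_product]
  exact Nat.mul_le_mul hS hW

theorem sys_sw {p : ℕ} [Fact p.Prime] {K N : ℕ} {S W : Finset (ZMod p)} (hS : Sys p K S)
    (hW : Sys p N W) (r : ZMod p) : Sys p (K * N) (sw S W r) := by
  obtain ⟨X, Y, Z, hX, hY, hZ, h⟩ := hS
  obtain ⟨X', Y', Z', hX', hY', hZ', h'⟩ := hW
  refine ⟨sw X X' r, sw Y Y' r, sw Z Z' r, card_sw_le hX hX' r, card_sw_le hY hY' r,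
    card_sw_le hZ hZ' r, ?_⟩
  intro s hs
  obtain ⟨z, hz, rfl⟩ := Finset.mem_image.1 hs
  rw [Finset.mem_product] at hz
  obtain ⟨x, hx, y, hy, e1, e2⟩ := h _ hz.1
  obtain ⟨x', hx', y', hy', e1', e2'⟩ := h' _ hz.2
  refine ⟨x + r * x', Finset.mem_image.2 ⟨(x, x'), Finset.mem_product.2 ⟨hx, hx'⟩, rfl⟩,
    y + r * y', Finset.mem_image.2 ⟨(y, y'), Finset.mem_product.2 ⟨hy, hy'⟩, rfl⟩, ?_, ?_⟩
  · rw [← e1, ← e1']
    ring
  · refine Finset.mem_image.2 ⟨(x - y, x' - y'), Finset.mem_product.2 ⟨e2, e2'⟩, ?_⟩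
    ring

theorem sys_cover {p : ℕ} [NeZero p] {K s : ℕ} {S : Finset (ZMod p)} (hS : Sys p K S)
    (h2 : p ≤ 2 * S.card) (hs : p < 2 ^ s) : SysU p (s * K) := by
  obtain ⟨X, Y, Z, hX, hY, hZ, h⟩ := hS
  obtain ⟨A, hA, hA'⟩ := cover S (by rw [ZMod.card]; exact h2) s univ
    (by rw [Finset.card_univ, ZMod.card]; exact hs)
  have hsle : ∀ U : Finset (ZMod p), U.card ≤ K →
      ((A ×ˢ U).image (fun z => z.1 + z.2)).card ≤ s * K := by
    intro U hU
    refine Finset.card_image_le.trans ?_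
    rw [Finset.card_product]
    exact Nat.mul_le_mul hA hU
  have hs1 : 1 ≤ s := by
    rcases Nat.eq_zero_or_pos s with h0 | h0
    · rw [h0, pow_zero] at hs
      have := NeZero.pos p
      omega
    · exact h0
  refine ⟨(A ×ˢ X).image (fun z => z.1 + z.2), Y,
    (A ×ˢ Z).image (fun z => z.1 + z.2), hsle X hX, ?_, hsle Z hZ, ?_⟩
  · exact hY.trans (Nat.le_mul_of_pos_left K hs1)
  · intro w
    obtain ⟨a, ha, haS⟩ := hA' w (Finset.mem_univ w)
    obtain ⟨x, hx, y, hy, e1, e2⟩ := h _ haS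
    refine ⟨a + x, Finset.mem_image.2 ⟨(a, x), Finset.mem_product.2 ⟨ha, hx⟩, rfl⟩, y, hy, ?_,
      Finset.mem_image.2 ⟨(a, x - y), Finset.mem_product.2 ⟨ha, e2⟩, ?_⟩⟩
    · rw [add_assoc, e1]
      ring
    · ring

theorem arith (p M m a s' : ℕ) (hp : 0 < p) (hM : 3 ≤ M)
    (h1 : p * (a * M) ≤ s' * (p + a * M)) (h2 : 2 * p * m ≤ a * (2 * p + 3 * m)) :
    2 * p * (m * M) ≤ s' * (2 * p + 3 * (m * M)) := by
  have h3 : 2 * p * m ≤ 2 * p * a + a * m * M := by
    have : a * m * 3 ≤ a * m * M := Nat.mul_le_mul_left _ hM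
    calc 2 * p * m ≤ a * (2 * p + 3 * m) := h2
      _ = 2 * p * a + a * m * 3 := by ring
      _ ≤ _ := Nat.add_le_add_left this _
  have h4 : 2 * p * (m * M) * (p + a * M) ≤ s' * (2 * p + 3 * (m * M)) * (p + a * M) := by
    calc 2 * p * (m * M) * (p + a * M)
        = p * M * (2 * p * m + 2 * (a * m * M)) := by ring
      _ ≤ p * M * ((2 * p * a + a * m * M) + 2 * (a * m * M)) :=
          Nat.mul_le_mul_left _ (Nat.add_le_add_right h3 _)
      _ = p * (a * M) * (2 * p + 3 * (m * M)) := by ring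
      _ ≤ s' * (p + a * M) * (2 * p + 3 * (m * M)) := Nat.mul_le_mul_right _ h1
      _ = s' * (2 * p + 3 * (m * M)) * (p + a * M) := by ring
  exact Nat.le_of_mul_le_mul_right h4 (by omega)

theorem iter {p : ℕ} [Fact p.Prime] {N M : ℕ} (hM : 3 ≤ M) (W : Finset (ZMod p))
    (hWM : W.card = M) (hW : Sys p N W) : ∀ k : ℕ, ∃ S : Finset (ZMod p), Sys p (N ^ k) S ∧
      2 * p * M ^ k ≤ S.card * (2 * p + 3 * M ^ k) := by
  have hp : 0 < p := (Fact.out : p.Prime).pos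
  intro k
  induction k with
  | zero =>
    refine ⟨{0}, by rw [pow_zero]; exact sys_zero p, ?_⟩
    rw [Finset.card_singleton, pow_zero]
    omega
  | succ k ih =>
    obtain ⟨S, hS, h2⟩ := ih
    have hSne : S.Nonempty := by
      rw [Finset.nonempty_iff_ne_empty]
      rintro rfl
      rw [Finset.card_empty, zero_mul] at h2
      have : 0 < 2 * p * M ^ k := by positivity
      omega
    have hWne : W.Nonempty := by
      rw [← Finset.card_pos]
      omega
    obtain ⟨r, hr⟩ := exists_mult S W hSne hWne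
    rw [ZMod.card, hWM] at hr
    refine ⟨sw S W r, ?_, ?_⟩
    · rw [pow_succ]
      exact sys_sw hS hW r
    · rw [pow_succ]
      exact arith p M (M ^ k) S.card _ hp hM hr h2

theorem big {p N M k s : ℕ} [Fact p.Prime] (hM : 3 ≤ M) (W : Finset (ZMod p))
    (hWM : W.card = M) (hW : Sys p N W) (hk : 2 * p ≤ M ^ k) (hs : p < 2 ^ s) :
    SysU p (s * N ^ k) := by
  obtain ⟨S, hS, h2⟩ := iter hM W hWM hW k
  refine sys_cover hS ?_ hs
  have hm : 0 < M ^ k := by positivity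
  have h3 : 2 * p * M ^ k ≤ (4 * S.card) * M ^ k := by
    calc 2 * p * M ^ k ≤ S.card * (2 * p + 3 * M ^ k) := h2
      _ ≤ S.card * (M ^ k + 3 * M ^ k) := Nat.mul_le_mul_left _ (by omega)
      _ = (4 * S.card) * M ^ k := by ring
  have h4 := Nat.le_of_mul_le_mul_right h3 hm
  omega

/-- A finite set of integers is injected into the residues modulo a large number. -/
theorem inj_mod (D : Finset ℤ) : ∃ p₀ : ℕ, ∀ p : ℕ, p₀ < p →
    (D.image (fun d : ℤ => (d : ZMod p))).card = D.card := by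
  refine ⟨2 * ∑ d ∈ D, d.natAbs, ?_⟩
  intro p hp
  apply Finset.card_image_of_injOn
  intro d hd e he h
  have h1 : d.natAbs ≤ ∑ d ∈ D, d.natAbs :=
    Finset.single_le_sum (f := fun d : ℤ => d.natAbs) (fun _ _ => Nat.zero_le _) hd
  have h2 : e.natAbs ≤ ∑ d ∈ D, d.natAbs :=
    Finset.single_le_sum (f := fun d : ℤ => d.natAbs) (fun _ _ => Nat.zero_le _) he
  have h3 : (p : ℤ) ∣ d - e := (ZMod.intCast_eq_intCast_iff_dvd_sub e d p).1 h.symm
  have h4 : d - e = 0 := by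
    apply Int.eq_zero_of_abs_lt_dvd h3
    rw [abs_lt]
    omega
  omega

/-- A set of pairs of integers gives systems of all residues modulo large primes. -/
theorem sys_univ (A : Finset (ℤ × ℤ)) (N M : ℕ) (hx : (A.image Prod.fst).card ≤ N)
    (hy : (A.image Prod.snd).card ≤ N) (hz : (A.image (fun z => z.1 + z.2)).card ≤ N)
    (hM : (A.image (fun z => z.1 - z.2)).card = M) (hM3 : 3 ≤ M) :
    ∃ p₀ : ℕ, ∀ p : ℕ, p.Prime → p₀ < p → ∀ k s : ℕ, 2 * p ≤ M ^ k → p < 2 ^ s →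
      SysU p (s * N ^ k) := by
  obtain ⟨p₀, hp₀⟩ := inj_mod (A.image (fun z => z.1 - z.2))
  refine ⟨p₀, ?_⟩
  intro p hp hlt k s hk hs
  have : Fact p.Prime := ⟨hp⟩
  refine big hM3 _ ((hp₀ p hlt).trans hM) ?_ hk hs
  refine ⟨(A.image Prod.fst).image (fun d : ℤ => (d : ZMod p)),
    (A.image Prod.snd).image (fun d : ℤ => (-d : ZMod p)),
    (A.image (fun z => z.1 + z.2)).image (fun d : ℤ => (d : ZMod p)),
    Finset.card_image_le.trans hx, Finset.card_image_le.trans hy,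
    Finset.card_image_le.trans hz, ?_⟩
  intro s hs
  obtain ⟨d, hd, rfl⟩ := Finset.mem_image.1 hs
  obtain ⟨z, hzA, rfl⟩ := Finset.mem_image.1 hd
  refine ⟨(z.1 : ZMod p), Finset.mem_image_of_mem _ (Finset.mem_image_of_mem _ hzA),
    (-z.2 : ZMod p), Finset.mem_image.2 ⟨z.2, Finset.mem_image_of_mem _ hzA, rfl⟩, ?_, ?_⟩
  · push_cast
    ring
  · refine Finset.mem_image.2 ⟨z.1 + z.2, Finset.mem_image.2 ⟨z, hzA, rfl⟩, ?_⟩
    push_cast
    ring

end Pool.QEX53
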